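import Mathlib

/-!
# A time window of length `n` can be hit with probability close to one at times `t ≫ n`

For the pure birth chain with `n` states that moves to the next state with probability `1 / K` and
stays otherwise, the hitting time of the last state is a sum of `n - 1` independent geometric
variables with mean `K`.  It has mean `(n - 1) K` and standard deviation of order `√n K`, so for
fixed `K` and large `n` it lies in a window of length `n` with probability close to `1`, although
`n / t` is about `1 / K`.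
-/

set_option autoImplicit false

namespace Pool.Agent.Results.MP_eadfc1_pr.LazyBirthChain

open Finset Filter Topology

/-- `P` is the transition matrix of a Markov chain on the finite state space `S`. -/
def IsTransitionMatrix {S : Type} [Fintype S] (P : S → S → ℝ) : Prop :=
  (∀ x y, 0 ≤ P x y) ∧ ∀ x, ∑ y, P x y = 1

/-- `hitProb P y k x = P_x(τ(y) = k)`, the probability that the chain started at `x` hits `y` for
the first time at time `k` (where `τ(y) = min {k ≥ 0 : X_k = y}`), by the Markov property: it is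
`1` or `0` for `k = 0`, and for `k + 1` it is `0` if `x = y` and `∑_z P(x,z) P_z(τ(y) = k)`
otherwise. -/
noncomputable def hitProb {S : Type} [Fintype S] [DecidableEq S] (P : S → S → ℝ) (y : S) :
    ℕ → S → ℝ
  | 0, x => if x = y then 1 else 0
  | (k + 1), x => if x = y then 0 else ∑ z, P x z * hitProb P y k z

/-- `P_x(a ≤ τ(y) ≤ b)` -/
noncomputable def windowProb {S : Type} [Fintype S] [DecidableEq S] (P : S → S → ℝ) (x y : S)
    (a b : ℕ) : ℝ := ∑ k ∈ Icc a b, hitProb P y k x

/-! ### The chain -/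

/-- The chain on `{0, …, r}` that moves from `i > 0` to `i - 1` with probability `p` and stays with
probability `1 - p`; the state `0` is absorbing. -/
noncomputable def chain (r : ℕ) (p : ℝ) (i j : Fin (r + 1)) : ℝ :=
  if i.1 = 0 then (if j = i then 1 else 0)
  else (if j = i then 1 - p else 0) + (if j.1 + 1 = i.1 then p else 0)

theorem sum_chain (r : ℕ) (p : ℝ) (i : Fin (r + 1)) (hi : i.1 ≠ 0) (f : Fin (r + 1) → ℝ) :
    ∑ j, chain r p i j * f j = (1 - p) * f i + p * f ⟨i.1 - 1, by omega⟩ := by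
  have h1 : ∀ j, chain r p i j * f j = (if j = i then (1 - p) * f j else 0) +
      (if j = (⟨i.1 - 1, by omega⟩ : Fin (r + 1)) then p * f j else 0) := by
    intro j
    rw [chain, if_neg hi]
    have h2 : (j.1 + 1 = i.1) ↔ j = (⟨i.1 - 1, by omega⟩ : Fin (r + 1)) := by
      rw [Fin.ext_iff]
      simp only
      omega
    rw [if_congr h2 rfl rfl]
    split_ifs <;> ring
  rw [Finset.sum_congr rfl fun j _ => h1 j, Finset.sum_add_distrib, Finset.sum_ite_eq',
    Finset.sum_ite_eq']
  simp

theorem chain_transition (r : ℕ) (p : ℝ) (h0 : 0 ≤ p) (h1 : p ≤ 1) :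
    IsTransitionMatrix (chain r p) := by
  constructor
  · intro i j
    unfold chain
    split_ifs <;> linarith
  · intro i
    by_cases hi : i.1 = 0
    · simp [chain, hi]
    · have := sum_chain r p i hi (fun _ => 1)
      simp only [mul_one] at this
      rw [this]
      ring

/-- the distribution function `P_i(τ(0) ≤ k)` -/
noncomputable def T (r : ℕ) (p : ℝ) (k : ℕ) (i : Fin (r + 1)) : ℝ :=
  ∑ m ∈ range (k + 1), hitProb (chain r p) 0 m i

theorem T_zero (r : ℕ) (p : ℝ) (k : ℕ) : T r p k 0 = 1 := by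
  induction k with
  | zero => simp [T, hitProb]
  | succ k ih =>
    rw [T, Finset.sum_range_succ, ← T, ih]
    simp [hitProb]

theorem T_init (r : ℕ) (p : ℝ) (i : Fin (r + 1)) (hi : i.1 ≠ 0) : T r p 0 i = 0 := by
  have : i ≠ 0 := fun h => hi (by rw [h]; rfl)
  simp [T, hitProb, this]

theorem T_succ (r : ℕ) (p : ℝ) (k : ℕ) (i : Fin (r + 1)) (hi : i.1 ≠ 0) :
    T r p (k + 1) i = (1 - p) * T r p k i + p * T r p k ⟨i.1 - 1, by omega⟩ := by
  have hi0 : i ≠ 0 := fun h => hi (by rw [h]; rfl)
  have h1 : T r p (k + 1) i = ∑ m ∈ range (k + 1), hitProb (chain r p) 0 (m + 1) i := by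
    rw [T, Finset.sum_range_succ']
    simp [hitProb, hi0]
  rw [h1]
  have h2 : ∀ m, hitProb (chain r p) 0 (m + 1) i = (1 - p) * hitProb (chain r p) 0 m i +
      p * hitProb (chain r p) 0 m ⟨i.1 - 1, by omega⟩ := by
    intro m
    rw [hitProb, if_neg hi0, sum_chain r p i hi]
  rw [Finset.sum_congr rfl fun m _ => h2 m, Finset.sum_add_distrib, ← Finset.mul_sum,
    ← Finset.mul_sum]
  rfl

theorem T_le (r : ℕ) (p z : ℝ) (hp0 : 0 ≤ p) (hp1 : p ≤ 1) (hz : 1 ≤ z) (k : ℕ) :
    ∀ i : Fin (r + 1), T r p k i * z ^ i.1 ≤ (1 - p + p * z) ^ k := by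
  have hQ : 1 ≤ 1 - p + p * z := by nlinarith
  induction k with
  | zero =>
    intro i
    by_cases hi : i.1 = 0
    · have : i = 0 := Fin.ext hi
      subst this
      simp [T_zero]
    · rw [T_init r p i hi]
      simp
  | succ k ih =>
    intro i
    by_cases hi : i.1 = 0
    · have : i = 0 := Fin.ext hi
      subst this
      rw [T_zero]
      simpa using one_le_pow₀ hQ
    · rw [T_succ r p k i hi, pow_succ]
      have h1 := ih i
      have h2 := ih ⟨i.1 - 1, by omega⟩
      simp only at h2
      have h3 : z ^ i.1 = z ^ (i.1 - 1) * z := by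
        rw [← pow_succ]
        congr 1
        omega
      have h4 : T r p k ⟨i.1 - 1, by omega⟩ * z ^ i.1 ≤ (1 - p + p * z) ^ k * z := by
        rw [h3, ← mul_assoc]
        exact mul_le_mul_of_nonneg_right h2 (by linarith)
      have h5 := mul_le_mul_of_nonneg_left h1 (show 0 ≤ 1 - p by linarith)
      have h6 := mul_le_mul_of_nonneg_left h4 hp0
      calc _ = (1 - p) * (T r p k i * z ^ i.1) + p * (T r p k ⟨i.1 - 1, by omega⟩ * z ^ i.1) := by
            ring
        _ ≤ (1 - p) * (1 - p + p * z) ^ k + p * ((1 - p + p * z) ^ k * z) := add_le_add h5 h6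
        _ = _ := by ring

theorem U_le (r : ℕ) (p w : ℝ) (hp0 : 0 ≤ p) (hp1 : p ≤ 1) (hw : 0 < w) (hw1 : w ≤ 1) (k : ℕ) :
    ∀ i : Fin (r + 1), (1 - T r p k i) * w ^ i.1 ≤ (1 - p + p * w) ^ k := by
  have hQ : 0 ≤ 1 - p + p * w := by nlinarith
  induction k with
  | zero =>
    intro i
    by_cases hi : i.1 = 0
    · have : i = 0 := Fin.ext hi
      subst this
      simp [T_zero]
    · rw [T_init r p i hi]
      simpa using pow_le_one₀ hw.le hw1
  | succ k ih =>
    intro i
    by_cases hi : i.1 = 0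
    · have : i = 0 := Fin.ext hi
      subst this
      rw [T_zero]
      simpa using pow_nonneg hQ (k + 1)
    · rw [T_succ r p k i hi, pow_succ]
      have h1 := ih i
      have h2 := ih ⟨i.1 - 1, by omega⟩
      simp only at h2
      have h3 : w ^ i.1 = w ^ (i.1 - 1) * w := by
        rw [← pow_succ]
        congr 1
        omega
      have h4 : (1 - T r p k ⟨i.1 - 1, by omega⟩) * w ^ i.1 ≤ (1 - p + p * w) ^ k * w := by
        rw [h3, ← mul_assoc]
        exact mul_le_mul_of_nonneg_right h2 hw.le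
      have h5 := mul_le_mul_of_nonneg_left h1 (show 0 ≤ 1 - p by linarith)
      have h6 := mul_le_mul_of_nonneg_left h4 hp0
      calc _ = (1 - p) * ((1 - T r p k i) * w ^ i.1) +
            p * ((1 - T r p k ⟨i.1 - 1, by omega⟩) * w ^ i.1) := by ring
        _ ≤ (1 - p) * (1 - p + p * w) ^ k + p * ((1 - p + p * w) ^ k * w) := add_le_add h5 h6
        _ = _ := by ring

theorem window_eq (r : ℕ) (p : ℝ) (i : Fin (r + 1)) (a n : ℕ) :
    windowProb (chain r p) i 0 (a + 1) (a + 1 + n) = T r p (a + 1 + n) i - T r p a i := by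
  rw [windowProb, T, T, ← Finset.sum_range_add_sum_Ico _ (show a + 1 ≤ a + 1 + n + 1 by omega)]
  rw [add_sub_cancel_left]
  rfl

/-- the two exponential rates are smaller than one -/
theorem rate1 (x : ℝ) (hx : 0 < x) : Real.exp (2 * (x - x * x)) < (1 + x) ^ 2 := by
  have h1 : x - x * x < Real.log (1 + x) := by
    have h2 := Real.one_sub_inv_le_log_of_pos (show 0 < 1 + x by linarith)
    have h3 : x - x * x < 1 - (1 + x)⁻¹ := by
      have : 1 - (1 + x)⁻¹ = x / (1 + x) := by field_simp; ring
      rw [this, lt_div_iff₀ (by linarith)]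
      nlinarith [mul_pos hx (mul_pos hx hx)]
    linarith
  calc Real.exp (2 * (x - x * x)) < Real.exp (2 * Real.log (1 + x)) := by
        apply Real.exp_lt_exp.2; linarith
    _ = (1 + x) ^ 2 := by
        rw [mul_comm, Real.exp_mul, Real.exp_log (by linarith)]
        norm_cast

theorem rate2 (x : ℝ) (hx : 0 < x) (hx1 : x < 1) :
    Real.exp (-2 * (x / 2) - 2 * (x / 2) * x) < (1 - x / 2) ^ 2 := by
  have h1 : -(x / 2) - (x / 2) * x < Real.log (1 - x / 2) := by
    have h2 := Real.one_sub_inv_le_log_of_pos (show 0 < 1 - x / 2 by linarith)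
    have h3 : -(x / 2) - (x / 2) * x < 1 - (1 - x / 2)⁻¹ := by
      have : 1 - (1 - x / 2)⁻¹ = -(x / 2) / (1 - x / 2) := by
        have h4 : (1 - x / 2) ≠ 0 := by linarith
        rw [eq_div_iff h4, sub_mul, inv_mul_cancel₀ h4]
        ring
      rw [this, lt_div_iff₀ (by linarith)]
      nlinarith [mul_pos hx hx, mul_pos (mul_pos hx hx) (sub_pos.2 hx1)]
    linarith
  calc Real.exp (-2 * (x / 2) - 2 * (x / 2) * x) < Real.exp (2 * Real.log (1 - x / 2)) := by
        apply Real.exp_lt_exp.2; linarith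
    _ = (1 - x / 2) ^ 2 := by
        rw [mul_comm, Real.exp_mul, Real.exp_log (by linarith)]
        norm_cast

/-- For every `C` there are a Markov chain with `n` states, states `x ≠ y` and an integer `t > n`
such that `P_x(t ≤ τ(y) ≤ t + n) > C n / t`; one can even have
`P_x(t ≤ τ(y) ≤ t + n) > 1 - ε` at the same time. -/
theorem result : ∀ C ε : ℝ, 0 < ε → ∃ (n : ℕ) (P : Fin n → Fin n → ℝ) (x y : Fin n) (t : ℕ),
    IsTransitionMatrix P ∧ x ≠ y ∧ n < t ∧ C * n / t < windowProb P x y t (t + n) ∧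
    1 - ε < windowProb P x y t (t + n) := by
  intro C ε hε
  obtain ⟨K, hK⟩ := exists_nat_gt (3 * |C| + 3)
  have hC0 : 0 ≤ |C| := abs_nonneg C
  have hK3 : (3 : ℝ) < K := by linarith
  have hKpos : (0 : ℝ) < K := by linarith
  have hK2 : 3 < K := by exact_mod_cast hK3
  set x : ℝ := 1 / (2 * K) with hx
  have hx0 : 0 < x := by positivity
  have hx1 : x < 1 := by
    rw [hx, div_lt_one (by positivity)]
    linarith
  -- the two bases
  set b₁ : ℝ := Real.exp (2 * (x - x * x)) / (1 + x) ^ 2 with hb₁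
  set b₂ : ℝ := Real.exp (-2 * (x / 2) - 2 * (x / 2) * x) / (1 - x / 2) ^ 2 with hb₂
  have hb₁1 : b₁ < 1 := by
    rw [hb₁, div_lt_one (by positivity)]
    exact rate1 x hx0
  have hb₂1 : b₂ < 1 := by
    rw [hb₂, div_lt_one (by nlinarith)]
    exact rate2 x hx0 hx1
  have hb₁0 : 0 ≤ b₁ := by positivity
  have hb₂0 : 0 ≤ b₂ := by positivity
  have hlim : Tendsto (fun m : ℕ => b₁ ^ m + b₂ ^ m) atTop (𝓝 (0 + 0)) :=
    (tendsto_pow_atTop_nhds_zero_of_lt_one hb₁0 hb₁1).add
      (tendsto_pow_atTop_nhds_zero_of_lt_one hb₂0 hb₂1)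
  rw [add_zero] at hlim
  obtain ⟨m, hm1, hm⟩ := ((hlim.eventually (gt_mem_nhds (show (0 : ℝ) < min ε (1 / 2) by
    positivity))).and (eventually_ge_atTop 1)).exists
  have hmR : (1 : ℝ) ≤ m := by exact_mod_cast hm
  set p : ℝ := 1 / K with hp
  have hp0 : 0 ≤ p := by positivity
  have hp1 : p ≤ 1 := by
    rw [hp, div_le_one hKpos]; linarith
  have hpx : p = 2 * x := by
    rw [hp, hx]
    field_simp
  set a : ℕ := m * (2 * K - 1) with ha
  set i : Fin (2 * m + 1) := ⟨2 * m, by omega⟩ with hi
  -- upper bound for early hitting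
  have e1 : T (2 * m) p a i ≤ b₁ ^ m := by
    have h1 := T_le (2 * m) p (1 + x) hp0 hp1 (by linarith) a i
    have h2 : (1 - p + p * (1 + x)) ^ a ≤ Real.exp (2 * (x - x * x)) ^ m := by
      have h3 : 1 - p + p * (1 + x) ≤ Real.exp (p * x) := by
        have := Real.add_one_le_exp (p * x)
        linarith
      calc (1 - p + p * (1 + x)) ^ a ≤ Real.exp (p * x) ^ a :=
            pow_le_pow_left₀ (by nlinarith) h3 _
        _ = Real.exp (2 * (x - x * x)) ^ m := by
            rw [← Real.exp_nat_mul, ← Real.exp_nat_mul]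
            congr 1
            rw [ha, hpx]
            have hcast : ((m * (2 * K - 1) : ℕ) : ℝ) = m * (2 * K - 1) := by
              rw [Nat.cast_mul, Nat.cast_sub (by omega)]
              push_cast
              ring
            rw [hcast]
            have hxK : 2 * (K : ℝ) * x = 1 := by
              rw [hx]; field_simp
            linear_combination (2 * (m : ℝ) * x) * hxK
    have h4 : 0 < (1 + x) ^ (2 * m) := by positivity
    have h5 : T (2 * m) p a i * (1 + x) ^ (2 * m) ≤ Real.exp (2 * (x - x * x)) ^ m :=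
      h1.trans h2
    rw [hb₁, div_pow, ← pow_mul, le_div_iff₀ h4]
    exact h5
  -- upper bound for late hitting
  have e2 : 1 - T (2 * m) p (a + 1 + (2 * m + 1)) i ≤ b₂ ^ m := by
    have h1 := U_le (2 * m) p (1 - x / 2) hp0 hp1 (by linarith) (by linarith)
      (a + 1 + (2 * m + 1)) i
    have h2 : (1 - p + p * (1 - x / 2)) ^ (a + 1 + (2 * m + 1)) ≤
        Real.exp (-2 * (x / 2) - 2 * (x / 2) * x) ^ m := by
      have h3 : 1 - p + p * (1 - x / 2) ≤ Real.exp (-(p * (x / 2))) := by
        have := Real.add_one_le_exp (-(p * (x / 2)))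
        linarith
      have h30 : 0 ≤ 1 - p + p * (1 - x / 2) := by nlinarith
      have h31 : 1 - p + p * (1 - x / 2) ≤ 1 := by nlinarith
      calc (1 - p + p * (1 - x / 2)) ^ (a + 1 + (2 * m + 1))
          ≤ (1 - p + p * (1 - x / 2)) ^ (m * (2 * K + 1)) := by
            apply pow_le_pow_of_le_one h30 h31
            rw [ha]
            obtain ⟨K', rfl⟩ : ∃ K', K = K' + 1 := ⟨K - 1, by omega⟩
            have : m * (2 * (K' + 1) + 1) = m * (2 * (K' + 1) - 1) + 2 * m := by
              have : 2 * (K' + 1) - 1 = 2 * K' + 1 := by omega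
              rw [this]
              ring
            omega
        _ ≤ Real.exp (-(p * (x / 2))) ^ (m * (2 * K + 1)) := pow_le_pow_left₀ h30 h3 _
        _ = Real.exp (-2 * (x / 2) - 2 * (x / 2) * x) ^ m := by
            rw [← Real.exp_nat_mul, ← Real.exp_nat_mul]
            congr 1
            rw [hpx]
            push_cast
            have hxK : 2 * (K : ℝ) * x = 1 := by
              rw [hx]; field_simp
            linear_combination (-(m : ℝ) * x) * hxK
    have h4 : 0 < (1 - x / 2) ^ (2 * m) := pow_pos (by linarith) _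
    have h5 : (1 - T (2 * m) p (a + 1 + (2 * m + 1)) i) * (1 - x / 2) ^ (2 * m) ≤
        Real.exp (-2 * (x / 2) - 2 * (x / 2) * x) ^ m := h1.trans h2
    rw [hb₂, div_pow, ← pow_mul, le_div_iff₀ h4]
    exact h5
  have e3 := window_eq (2 * m) p i a (2 * m + 1)
  have e4 : 1 - min ε (1 / 2) < windowProb (chain (2 * m) p) i 0 (a + 1) (a + 1 + (2 * m + 1)) := by
    rw [e3]
    linarith
  have ha1 : (a : ℝ) = m * (2 * K - 1) := by
    rw [ha, Nat.cast_mul, Nat.cast_sub (by omega)]
    push_cast
    ring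
  refine ⟨2 * m + 1, chain (2 * m) p, i, 0, a + 1, chain_transition _ _ hp0 hp1, ?_, ?_, ?_, ?_⟩
  · intro h
    have := congrArg Fin.val h
    simp [hi] at this
    omega
  · rw [ha]
    have : 3 ≤ 2 * K - 1 := by omega
    nlinarith
  · have h1 : (1 / 2 : ℝ) ≤ 1 - min ε (1 / 2) := by
      have := min_le_right ε (1 / 2 : ℝ)
      linarith
    refine lt_of_le_of_lt ?_ (lt_of_le_of_lt h1 e4)
    rw [div_le_iff₀ (by positivity)]
    push_cast
    rw [ha1]
    have h2 : C ≤ |C| := le_abs_self C
    have h3 : C * (2 * m + 1) ≤ |C| * (3 * m) := by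
      calc C * (2 * m + 1) ≤ |C| * (2 * m + 1) := mul_le_mul_of_nonneg_right h2 (by positivity)
        _ ≤ |C| * (3 * m) := mul_le_mul_of_nonneg_left (by linarith) hC0
    nlinarith
  · refine lt_of_le_of_lt ?_ e4
    have := min_le_left ε (1 / 2 : ℝ)
    linarith

end Pool.Agent.Results.MP_eadfc1_pr.LazyBirthChain
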